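import Pool.Agent.Helper49.RU.St

set_option autoImplicit false

namespace Pool.Agent.Helper51.RU

open Pool.Agent.Helper49.RU
open MeasureTheory Filter Topology Complex
open scoped ENNReal Cardinal ComplexConjugate

theorem hlf_a (j L k : ℕ) (Z : Finset (Fin k → Q)) (hjL : j ≤ L) (h : Big L Z) : Big j Z := by
  obtain ⟨S, q, h1, h2, h3⟩ := h
  refine ⟨S, q, h1, hjL.trans h2, h3.trans ?_⟩
  refine mul_le_mul_of_nonneg_left ?_ (Nat.cast_nonneg _)
  refine Real.rpow_le_rpow_of_exponent_le (by norm_num) ?_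
  have hj : (0 : ℝ) < (j : ℝ) + 1 := by positivity
  have hL : (j : ℝ) + 1 ≤ (L : ℝ) + 1 := by
    have : (j : ℝ) ≤ (L : ℝ) := by exact_mod_cast hjL
    linarith
  exact div_le_div_of_nonneg_left (Nat.cast_nonneg _) hj hL

theorem hlf_b (j k : ℕ) (Z : Finset (Fin k → Q)) (h : Big j Z) : Z.Nonempty := by
  obtain ⟨S, q, h1, h2, h3⟩ := h
  rw [Finset.nonempty_iff_ne_empty]
  rintro rfl
  have h4 : (0 : ℝ) < (9 : ℝ) ^ S.card := by positivity
  simp at h3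
  linarith

theorem hlf_c (j k : ℕ) (Z Y : Finset (Fin k → Q)) (h : Big (4 * (j + 1)) Z)
    (hc : Z.card ≤ 2 * Y.card) (hYZ : Y ⊆ Z) : Big j Y := by
  obtain ⟨S, q, h1, h2, h3⟩ := h
  refine ⟨S, q, fun g hg => h1 g (hYZ hg), ?_, h3.trans ?_⟩
  · omega
  have hcR : (Z.card : ℝ) ≤ 2 * (Y.card : ℝ) := by exact_mod_cast hc
  set s : ℝ := (S.card : ℝ) with hs
  set t : ℝ := (j : ℝ) + 1 with ht
  have ht0 : (1 : ℝ) ≤ t := by
    rw [ht]
    have : (0 : ℝ) ≤ (j : ℝ) := Nat.cast_nonneg _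
    linarith
  have hst : 4 * t ≤ s := by
    rw [ht, hs]
    exact_mod_cast h2
  have hcast : (((4 * (j + 1) : ℕ) : ℝ) + 1) = 4 * t + 1 := by
    rw [ht]
    push_cast
    ring
  rw [hcast]
  have hexp : s / (4 * t + 1) + 1 ≤ s / t := by
    have e1 : s / (4 * t + 1) ≤ s / (4 * t) :=
      div_le_div_of_nonneg_left (by linarith) (by linarith) (by linarith)
    have e2 : s / t - s / (4 * t) = 3 * (s / (4 * t)) := by
      field_simp
      ring
    have e3 : 1 ≤ s / (4 * t) := by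
      rw [le_div_iff₀ (by linarith)]
      linarith
    linarith
  have hpow : (2 : ℝ) ^ (s / (4 * t + 1)) * 2 ≤ (2 : ℝ) ^ (s / t) := by
    have e1 : (2 : ℝ) ^ (s / (4 * t + 1) + 1) = (2 : ℝ) ^ (s / (4 * t + 1)) * 2 := by
      rw [Real.rpow_add (by norm_num), Real.rpow_one]
    rw [← e1]
    exact Real.rpow_le_rpow_of_exponent_le (by norm_num) hexp
  have hp0 : (0 : ℝ) ≤ (2 : ℝ) ^ (s / (4 * t + 1)) := Real.rpow_nonneg (by norm_num) _
  calc (Z.card : ℝ) * (2 : ℝ) ^ (s / (4 * t + 1))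
      ≤ (2 * (Y.card : ℝ)) * (2 : ℝ) ^ (s / (4 * t + 1)) :=
        mul_le_mul_of_nonneg_right hcR hp0
    _ = (Y.card : ℝ) * ((2 : ℝ) ^ (s / (4 * t + 1)) * 2) := by ring
    _ ≤ (Y.card : ℝ) * (2 : ℝ) ^ (s / t) :=
        mul_le_mul_of_nonneg_left hpow (Nat.cast_nonneg _)

theorem hHLF : StHLF :=
  ⟨fun j L k Z hjL h => hlf_a j L k Z hjL h, fun j k Z h => hlf_b j k Z h,
    fun j k Z Y h hYZ hc => hlf_c j k Z Y h hc hYZ⟩

end Pool.Agent.Helper51.RU
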